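import Mathlib

set_option autoImplicit false
set_option maxHeartbeats 400000

namespace Pool.Agent.Results.MP_fe322e_ag.NotGroebner

open MvPolynomial Finsupp
open scoped MonomialOrder

/-- `r^v_{pq}`: the number of `j ≤ q` with `v j ≥ p`. -/
def rk {n : ℕ} (v : Equiv.Perm (Fin n)) (p q : Fin n) : ℕ :=
  (Finset.univ.filter fun j => j ≤ q ∧ p ≤ v j).card

/-- Positions of the indeterminates of `Z^(u)`. -/
abbrev Var {n : ℕ} (u : Equiv.Perm (Fin n)) : Type :=
  {x : Fin n × Fin n // u x.2 < x.1 ∧ x.2 < u.symm x.1}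

/-- The matrix `Z^(u)`. -/
noncomputable def Z {n : ℕ} (k : Type) [Field k] (u : Equiv.Perm (Fin n)) :
    Matrix (Fin n) (Fin n) (MvPolynomial (Var u) k) := fun i j =>
  if u j = i then 1 else if h : u j < i ∧ j < u.symm i then X ⟨(i, j), h⟩ else 0

/-- The defining determinants of `I_{u,v}`. -/
def dets {n : ℕ} (k : Type) [Field k] (u v : Equiv.Perm (Fin n)) : Set (MvPolynomial (Var u) k) :=
  {g | ∃ (p q : Fin n) (a b : Fin (rk v p q + 1) → Fin n), StrictMono a ∧ StrictMono b ∧
    (∀ t, p ≤ a t) ∧ (∀ t, b t ≤ q) ∧ g = ((Z k u).submatrix a b).det}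

/-- refinement of a weight by a monomial order -/
noncomputable def ref {σ : Type} (w : σ → ℕ) (m : MonomialOrder.{0, 0} σ) : MonomialOrder.{0, 0} σ :=
  letI lo : LinearOrder (σ →₀ ℕ) := LinearOrder.lift' (fun d => toLex (weight w d, m.toSyn d))
    fun _ _ h => m.toSyn.injective (congrArg (fun x => (ofLex x).2) h)
  { syn := σ →₀ ℕ
    linearOrderSyn := lo
    isOrderedAddMonoid_syn := @IsOrderedAddMonoid.mk _ _ lo.toPreorder (fun a b h c => by
      change toLex (weight w _, m.toSyn _) ≤ toLex (weight w _, m.toSyn _) at h ⊢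
      rw [map_add, map_add, map_add, map_add]
      exact add_le_add_left h (toLex (weight w c, m.toSyn c))) (fun a b h c => by
      change toLex (weight w _, m.toSyn _) ≤ toLex (weight w _, m.toSyn _) at h ⊢
      rw [map_add, map_add, map_add, map_add]
      exact add_le_add_right h (toLex (weight w c, m.toSyn c)))
    toSyn := AddEquiv.refl _
    toSyn_monotone := fun a b h => by
      change toLex (weight w a, m.toSyn a) ≤ toLex (weight w b, m.toSyn b)
      refine Prod.Lex.toLex_mono ⟨?_, m.toSyn_monotone h⟩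
      obtain ⟨c, rfl⟩ := exists_add_of_le h
      simp
    wellFoundedLT_syn := ⟨InvImage.wf (fun d => toLex (weight w d, m.toSyn d)) wellFounded_lt⟩ }

lemma ref_lt {σ : Type} (w : σ → ℕ) (m : MonomialOrder.{0, 0} σ) (c d : σ →₀ ℕ) :
    c ≺[ref w m] d ↔ weight w c < weight w d ∨ weight w c = weight w d ∧ c ≺[m] d :=
  Prod.Lex.toLex_lt_toLex (x := (weight w c, m.toSyn c)) (y := (weight w d, m.toSyn d))

lemma deg_eq {σ k : Type} [Field k] (m : MonomialOrder.{0, 0} σ) (d : σ →₀ ℕ) (c : k) (hc : c ≠ 0)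
    (g : MvPolynomial σ k) (h : ∀ e ∈ g.support, e ≺[m] d) : m.degree (monomial d c + g) = d := by
  classical
  refine m.toSyn.injective (le_antisymm (m.degree_le_iff.2 fun e he => ?_) (m.le_degree ?_))
  · rcases Finset.mem_union.1 (MvPolynomial.support_add he) with h1 | h1
    · rw [Finset.mem_singleton.1 (support_monomial_subset h1)]
    · exact (h e h1).le
  · have : coeff d g = 0 := MvPolynomial.notMem_support_iff.1 fun h1 => lt_irrefl _ (h d h1)
    simpa [this] using hc

/-- the weight -/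
def wt (x : Fin 5 × Fin 5) : ℕ := x.1 * x.2 + if x.2 = 1 then 100 else 0

lemma cases_dets {R : Type} [CommRing R] (M : Matrix (Fin 5) (Fin 5) R) (s : ℕ) (p q : Fin 5)
    (hs : rk (Equiv.addRight 2) p q = s) (a b : Fin (s + 1) → Fin 5) (ha : StrictMono a)
    (hb : StrictMono b) (h1 : ∀ t, p ≤ a t) (h2 : ∀ t, b t ≤ q) :
    (M.submatrix a b).det ∈ [M 3 0, M 4 0, M 4 1, M 3 0 * M 4 1 - M 3 1 * M 4 0,
      (M.submatrix ![1, 2, 3, 4] ![0, 1, 2, 3]).det] := by
  have h3 : ∀ c : Fin (s + 1) → Fin 5, StrictMono c → (c 0 : ℕ) + s ≤ c (Fin.last s) := by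
    intro c hc
    have : ∀ t : Fin (s + 1), (c 0 : ℕ) + t ≤ c t := fun t => by
      induction t using Fin.induction with
      | zero => rfl
      | succ t ih =>
        have : (c t.castSucc : ℕ) < c t.succ := hc Fin.castSucc_lt_succ
        simp only [Fin.val_castSucc, Fin.val_succ] at ih ⊢
        omega
    exact this (Fin.last s)
  have h4 := h3 a ha
  have h5 := h3 b hb
  have h6 : (p : ℕ) ≤ a 0 := h1 0
  have h7 : (b (Fin.last s) : ℕ) ≤ q := h2 _
  have h8 : ∀ p q : Fin 5, p + rk (Equiv.addRight 2) p q ≤ 4 → rk (Equiv.addRight 2) p q ≤ q →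
      (p, q, rk (Equiv.addRight 2) p q) ∈ [(3, 0, 0), (4, 0, 0), (4, 1, 0), (3, 1, 1), (1, 3, 3)] := by
    decide
  have h9 := h8 p q (by omega) (by omega)
  simp only [hs, List.mem_cons, Prod.mk.injEq, List.not_mem_nil, or_false] at h9
  rcases h9 with ⟨rfl, rfl, rfl⟩ | ⟨rfl, rfl, rfl⟩ | ⟨rfl, rfl, rfl⟩ | ⟨rfl, rfl, rfl⟩ |
    ⟨rfl, rfl, rfl⟩
  · have h10 : b 0 = 0 := by have := h2 0; omega
    have h11 : a 0 = 3 ∨ a 0 = 4 := by omega
    rcases h11 with h | h <;> simp [h, h10]
  · have h10 : b 0 = 0 := by have := h2 0; omega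
    have h11 : a 0 = 4 := by omega
    simp [h11, h10]
  · have h10 : b 0 = 0 ∨ b 0 = 1 := by have := h2 0; omega
    have h11 : a 0 = 4 := by omega
    rcases h10 with h | h <;> simp [h, h11]
  · have h10 : a 0 < a 1 := ha (by decide)
    have h11 : b 0 < b 1 := hb (by decide)
    have h12 := h2 1
    simp [Matrix.det_fin_two, show a 0 = 3 by omega, show a 1 = 4 by omega, show b 0 = 0 by omega,
      show b 1 = 1 by omega]
  · have a1 : a 0 < a 1 := ha (by decide)
    have a2 : a 1 < a 2 := ha (by decide)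
    have a3 : a 2 < a 3 := ha (by decide)
    have b1 : b 0 < b 1 := hb (by decide)
    have b2 : b 1 < b 2 := hb (by decide)
    have b3 : b 2 < b 3 := hb (by decide)
    have h12 := h2 3
    have h13 : a = ![1, 2, 3, 4] := by
      ext t
      fin_cases t <;> simp <;> omega
    have h14 : b = ![0, 1, 2, 3] := by
      ext t
      fin_cases t <;> simp <;> omega
    simp [h13, h14]

theorem result (k : Type) [Field k] :
    ∃ (n : ℕ) (u v : Equiv.Perm (Fin n)) (m : MonomialOrder.{0, 0} (Fin n × Fin n)),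
      (∀ p q, rk u p q ≤ rk v p q) ∧
      (∀ c d : Fin n × Fin n →₀ ℕ, c.degree < d.degree → c ≺[m] d) ∧
      (∀ (s : ℕ) (a b : Fin s → Fin n), StrictMono a → StrictMono b →
        m.degree (Matrix.of fun i j => (X (a i, b j) : MvPolynomial (Fin n × Fin n) k)).det =
          ∑ i, single (a i, b i) 1) ∧
      ¬ ∀ f ∈ Ideal.span (dets k u v), f ≠ 0 → ∃ g ∈ dets k u v, g ≠ 0 ∧
        m.degree (rename Subtype.val g) ≤ m.degree (rename Subtype.val f) := by
  classical
  obtain ⟨m, hm, hm'⟩ : ∃ m : MonomialOrder.{0, 0} (Fin 5 × Fin 5),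
      (∀ c d : Fin 5 × Fin 5 →₀ ℕ, c.degree < d.degree → c ≺[m] d) ∧
      ∀ c d : Fin 5 × Fin 5 →₀ ℕ, c.degree = d.degree → weight wt c < weight wt d → c ≺[m] d :=
    ⟨ref (fun _ => 1) (ref wt (MonomialOrder.lex (σ := Fin 5 ×ₗ Fin 5))),
      fun c d h => (ref_lt _ _ _ _).2 (Or.inl (by rwa [← degree_eq_weight_one])),
      fun c d h h' => (ref_lt _ _ _ _).2 (Or.inr ⟨by rwa [← degree_eq_weight_one],
        (ref_lt _ _ _ _).2 (Or.inl h')⟩)⟩
  refine ⟨5, Equiv.swap 1 3, Equiv.addRight 2, m, by decide, hm, fun s a b ha hb => ?_, fun h => ?_⟩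
  · have h1 : ∀ σ : Equiv.Perm (Fin s), ∏ i, (X (a (σ i), b i) : MvPolynomial (Fin 5 × Fin 5) k) =
        monomial (∑ i, single (a (σ i), b i) 1) 1 := fun σ => by
      simp [X, monomial_sum_one]
    rw [Matrix.det_apply]
    simp only [Matrix.of_apply, h1]
    rw [← Finset.add_sum_erase _ _ (Finset.mem_univ 1), map_one, one_smul]
    simp only [Equiv.Perm.one_apply]
    refine deg_eq m _ _ one_ne_zero _ fun e he => ?_
    obtain ⟨σ, h2, h3⟩ := Finset.mem_biUnion.1 (MvPolynomial.support_sum he)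
    rw [Finset.mem_singleton.1 (support_monomial_subset (MvPolynomial.support_smul h3))]
    refine hm' _ _ (by simp only [map_sum, degree_single]) ?_
    simp only [map_sum, weight_single, one_smul, wt, Finset.sum_add_distrib, add_lt_add_iff_right]
    refine (Monovary.sum_comp_perm_mul_lt_sum_mul_iff (f := fun i => (a i : ℕ))
      (g := fun i => (b i : ℕ)) (fun i j h => ha.monotone (hb.lt_iff_lt.1 h).le)).2 fun h4 => ?_
    exact (Finset.mem_erase.1 h2).1 ((Equiv.Perm.monotone_iff σ).1
      (monotone_iff_forall_lt.2 fun i j h => ha.le_iff_le.1 (h4 (hb h))))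
  obtain ⟨x, hx⟩ : ∃ x : Fin 7 → Var (Equiv.swap (1 : Fin 5) 3), ∀ i, (x i).1 =
      ![(1, 0), (2, 0), (3, 0), (4, 0), (4, 1), (4, 2), (4, 3)] i :=
    ⟨fun i => ⟨![(1, 0), (2, 0), (3, 0), (4, 0), (4, 1), (4, 2), (4, 3)] i, by revert i; decide⟩,
      fun _ => rfl⟩
  have hZ : Z k (Equiv.swap (1 : Fin 5) 3) = !![1, 0, 0, 0, 0; X (x 0), 0, 0, 1, 0;
      X (x 1), 0, 1, 0, 0; X (x 2), 1, 0, 0, 0; X (x 3), X (x 4), X (x 5), X (x 6), 1] := by
    ext1 i j
    fin_cases i <;> fin_cases j <;> simp (decide := true) [Z] <;>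
      exact Subtype.ext (by rw [hx]; rfl)
  have e1 : ((Z k (Equiv.swap (1 : Fin 5) 3)).submatrix ![1, 2, 3, 4] ![0, 1, 2, 3]).det =
      -(X (x 2) * X (x 4) + (X (x 1) * X (x 5) + X (x 0) * X (x 6) - X (x 3))) := by
    simp [hZ, Matrix.det_succ_row_zero, Fin.sum_univ_succ, Fin.succAbove]
    ring
  have x0 : ∀ i j, X (x i) * X (x j) = (monomial (single (x i) 1 + single (x j) 1) 1 :
      MvPolynomial _ k) := fun i j => by simp [X, monomial_mul]
  have m1 : X (x 2) ∈ dets k (Equiv.swap (1 : Fin 5) 3) (Equiv.addRight 2) :=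
    ⟨3, 0, ![3], ![0], by decide, by decide, by decide, by decide, by
      show _ = ((Z k _).submatrix ![3] ![0]).det
      simp [hZ]⟩
  have m2 : X (x 3) ∈ dets k (Equiv.swap (1 : Fin 5) 3) (Equiv.addRight 2) :=
    ⟨3, 0, ![4], ![0], by decide, by decide, by decide, by decide, by
      show _ = ((Z k _).submatrix ![4] ![0]).det
      simp [hZ]⟩
  have m3 : _ ∈ dets k (Equiv.swap (1 : Fin 5) 3) (Equiv.addRight 2) :=
    ⟨1, 3, ![1, 2, 3, 4], ![0, 1, 2, 3], by decide, by decide, by decide, by decide, e1.symm⟩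
  obtain ⟨g, ⟨p, q, a, b, h1, h2, h3, h4, rfl⟩, -, h5⟩ := h (X (x 1) * X (x 5) + X (x 0) * X (x 6))
    (by
      have := add_mem (sub_mem (neg_mem (Ideal.subset_span m3))
        (Ideal.mul_mem_right (X (x 4)) _ (Ideal.subset_span m1))) (Ideal.subset_span m2)
      convert this using 1
      ring) (fun h => by
      simpa (decide := true) [hx] using
        congrArg (eval fun y => if y.1 = (2, 0) ∨ y.1 = (4, 2) then 1 else 0) h)
  have h6 : ∀ y ∈ [(3, 0), (4, 0), (4, 1)], m.degree (rename Subtype.val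
      (X (x 1) * X (x 5) + X (x 0) * X (x 6) : MvPolynomial _ k)) y = 0 := by
    intro y hy
    by_cases h6 : rename Subtype.val
      (X (x 1) * X (x 5) + X (x 0) * X (x 6) : MvPolynomial _ k) = 0
    · rw [h6]
      simp
    have h7 := m.degree_mem_support h6
    generalize m.degree (R := k) _ = d at h7
    simp only [x0, map_add, rename_monomial, mapDomain_add, mapDomain_single, hx] at h7
    rcases Finset.mem_union.1 (MvPolynomial.support_add h7) with h8 | h8 <;>
      rw [Finset.mem_singleton.1 (support_monomial_subset h8)] <;>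
      simp only [List.mem_cons, List.not_mem_nil, or_false] at hy <;>
      rcases hy with rfl | rfl | rfl <;> simp
  simp only [List.forall_mem_cons] at h6
  generalize m.degree (rename Subtype.val
      (X (x 1) * X (x 5) + X (x 0) * X (x 6) : MvPolynomial _ k)) = d at h5 h6
  have h7 := cases_dets (Z k (Equiv.swap (1 : Fin 5) 3)) _ p q rfl a b h1 h2 h3 h4
  rw [e1] at h7
  generalize ((Z k (Equiv.swap (1 : Fin 5) 3)).submatrix a b).det = g at h5 h7
  have h8 : ∀ i, m.degree (rename Subtype.val (X (x i) : MvPolynomial _ k)) = single (x i).1 1 :=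
    fun i => by rw [rename_X, m.degree_X]
  have h9 : ∀ g : MvPolynomial _ k, (∀ e ∈ (rename Subtype.val g).support,
      e ≺[m] single (3, 0) 1 + single (4, 1) 1) →
      m.degree (rename Subtype.val (X (x 2) * X (x 4) + g)) = single (3, 0) 1 + single (4, 1) 1 :=
    fun g hg => by
      rw [x0, map_add, rename_monomial, mapDomain_add, mapDomain_single, mapDomain_single, hx, hx]
      exact deg_eq m _ _ one_ne_zero _ hg
  simp only [hZ, List.mem_cons, List.not_mem_nil, or_false] at h7
  rcases h7 with rfl | rfl | rfl | rfl | rfl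
  · simpa [h6, hx] using ((h8 2).symm.le.trans h5) (3, 0)
  · simpa [h6, hx] using ((h8 3).symm.le.trans h5) (4, 0)
  · simpa [h6, hx] using ((h8 4).symm.le.trans h5) (4, 1)
  · have := h9 (-X (x 3)) fun e he => by
      simp only [map_neg, rename_X, MvPolynomial.support_neg, support_X, Finset.mem_singleton] at he
      exact he ▸ hm _ _ (by simp)
    simp only [Matrix.of_apply, Matrix.cons_val, one_mul, sub_eq_add_neg, this] at h5
    simpa [h6] using h5 (3, 0)
  · rw [map_neg, m.degree_neg, h9 _ fun e he => ?_] at h5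
    · simpa [h6] using h5 (3, 0)
    simp only [x0, map_add, map_sub, rename_monomial, mapDomain_add, mapDomain_single, hx,
      rename_X] at he
    rcases Finset.mem_union.1 (MvPolynomial.support_sub _ _ _ he) with h | h
    · rcases Finset.mem_union.1 (MvPolynomial.support_add h) with h | h <;>
        rw [Finset.mem_singleton.1 (support_monomial_subset h)] <;>
        exact hm' _ _ (by simp) (by simp [weight_single, wt])
    · rw [support_X, Finset.mem_singleton] at h
      exact h ▸ hm _ _ (by simp)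

end Pool.Agent.Results.MP_fe322e_ag.NotGroebner
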